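import Pool.Agent.Helper19_RFK.Stmts

/-!
# Squad RFK, module CMPK: there is a maximizer of the weighted integral
-/

set_option autoImplicit false

open MeasureTheory Set Filter Topology

namespace Pool.Agent.RFK.H81

/-- An equi-Lipschitz uniformly bounded sequence has a pointwise convergent subsequence. -/
lemma subseq (L : NNReal) (M : ℝ) (u : ℕ → ℂ → ℝ) (hL : ∀ n, LipschitzWith L (u n))
    (hb : ∀ n x, u n x ∈ Icc 0 M) :
    ∃ φ : ℕ → ℕ, StrictMono φ ∧ ∃ f : ℂ → ℝ, ∀ x, Tendsto (fun n => u (φ n) x) atTop (𝓝 (f x)) := by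
  have hc : IsCompact (Set.pi univ (fun _ : ℕ => Icc (0:ℝ) M)) :=
    isCompact_univ_pi fun _ => isCompact_Icc
  obtain ⟨a, -, φ, hφ, ha⟩ := hc.tendsto_subseq
    (x := fun n k => u n (TopologicalSpace.denseSeq ℂ k)) (fun n k _ => hb n _)
  refine ⟨φ, hφ, ?_⟩
  have hd : ∀ k, Tendsto (fun n => u (φ n) (TopologicalSpace.denseSeq ℂ k)) atTop (𝓝 (a k)) := by
    intro k
    exact (tendsto_pi_nhds.1 ha) k
  have hcau : ∀ x, CauchySeq (fun n => u (φ n) x) := by
    intro x
    rw [Metric.cauchySeq_iff]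
    intro ε hε
    have hδ : 0 < ε / (3 * ((L : ℝ) + 1)) := by positivity
    obtain ⟨y, hy, k, rfl⟩ := Metric.dense_iff.1 (TopologicalSpace.denseRange_denseSeq ℂ) x _ hδ
    rw [Metric.mem_ball] at hy
    obtain ⟨N, hN⟩ := Metric.cauchySeq_iff.1 (hd k).cauchySeq (ε / 3) (by positivity)
    refine ⟨N, fun m hm n hn => ?_⟩
    have h1 : ∀ j, dist (u (φ j) x) (u (φ j) (TopologicalSpace.denseSeq ℂ k)) < ε / 3 := by
      intro j
      have := (hL (φ j)).dist_le_mul x (TopologicalSpace.denseSeq ℂ k)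
      have h2 : (L : ℝ) * dist x (TopologicalSpace.denseSeq ℂ k) ≤
          (L : ℝ) * (ε / (3 * ((L : ℝ) + 1))) := by
        apply mul_le_mul_of_nonneg_left _ L.2
        rw [dist_comm]; exact hy.le
      have h3 : (L : ℝ) * (ε / (3 * ((L : ℝ) + 1))) < ε / 3 := by
        have hL1 : (0:ℝ) ≤ L := L.2
        rw [mul_div_assoc', div_lt_div_iff₀ (by positivity) (by positivity)]
        nlinarith
      linarith
    have h4 := hN m hm n hn
    calc dist (u (φ m) x) (u (φ n) x)
        ≤ dist (u (φ m) x) (u (φ m) (TopologicalSpace.denseSeq ℂ k)) +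
          dist (u (φ m) (TopologicalSpace.denseSeq ℂ k)) (u (φ n) (TopologicalSpace.denseSeq ℂ k)) +
          dist (u (φ n) (TopologicalSpace.denseSeq ℂ k)) (u (φ n) x) := dist_triangle4 _ _ _ _
      _ < ε / 3 + ε / 3 + ε / 3 := by
          have := h1 m
          have h5 := h1 n
          rw [dist_comm] at h5
          linarith
      _ = ε := by ring
  choose f hf using fun x => cauchySeq_tendsto_of_complete (hcau x)
  exact ⟨f, hf⟩

lemma adm_bound {L : NNReal} {ρ : ℝ} {f : ℂ → ℝ} (hf : Adm L ρ f) (x : ℂ) :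
    f x ∈ Icc 0 (2 * (L : ℝ) * max ρ 0) := by
  refine ⟨hf.nonneg x, ?_⟩
  by_cases hx : ρ ≤ ‖x‖
  · rw [hf.supp x hx]
    have hL1 : (0:ℝ) ≤ L := L.2
    positivity
  · push Not at hx
    have hρ : 0 < ρ := lt_of_le_of_lt (norm_nonneg x) hx
    have hy : ‖((ρ : ℝ) : ℂ)‖ = ρ := by simp [abs_of_pos hρ]
    have h1 : f ((ρ : ℝ) : ℂ) = 0 := hf.supp _ hy.ge
    have h2 := hf.lip.dist_le_mul x ((ρ : ℝ) : ℂ)
    rw [h1, Real.dist_eq, sub_zero] at h2
    have h3 : dist x ((ρ : ℝ) : ℂ) ≤ 2 * ρ := by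
      calc dist x ((ρ : ℝ) : ℂ) = ‖x - ((ρ : ℝ) : ℂ)‖ := dist_eq_norm _ _
        _ ≤ ‖x‖ + ‖((ρ : ℝ) : ℂ)‖ := norm_sub_le _ _
        _ ≤ 2 * ρ := by rw [hy]; linarith
    rw [max_eq_left hρ.le]
    have hL1 : (0:ℝ) ≤ L := L.2
    have h4 : (L:ℝ) * dist x ((ρ : ℝ) : ℂ) ≤ L * (2 * ρ) := mul_le_mul_of_nonneg_left h3 hL1
    have h5 := le_abs_self (f x)
    linarith

lemma adm_limit {L : NNReal} {ρ : ℝ} {u : ℕ → ℂ → ℝ} {f : ℂ → ℝ} (hu : ∀ n, Adm L ρ (u n))
    (hf : ∀ x, Tendsto (fun n => u n x) atTop (𝓝 (f x))) : Adm L ρ f := by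
  refine ⟨?_, ?_, ?_⟩
  · apply LipschitzWith.of_dist_le_mul
    intro x y
    exact le_of_tendsto ((hf x).dist (hf y)) (Eventually.of_forall fun n => (hu n).lip.dist_le_mul x y)
  · intro x
    exact ge_of_tendsto (hf x) (Eventually.of_forall fun n => (hu n).nonneg x)
  · intro x hx
    have h1 : Tendsto (fun n => u n x) atTop (𝓝 0) := by
      have : (fun n => u n x) = fun _ => (0:ℝ) := by
        funext n; exact (hu n).supp x hx
      rw [this]; exact tendsto_const_nhds
    exact tendsto_nhds_unique (hf x) h1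

lemma tendsto_psi {L : NNReal} {ρ : ℝ} {u : ℕ → ℂ → ℝ} {f : ℂ → ℝ} (hu : ∀ n, Adm L ρ (u n))
    (hf : ∀ x, Tendsto (fun n => u n x) atTop (𝓝 (f x))) (ψ : ℝ → ℝ) (hψ : Continuous ψ)
    (h0 : ψ 0 = 0) : Tendsto (fun n => ∫ x, ψ (u n x)) atTop (𝓝 (∫ x, ψ (f x))) := by
  obtain ⟨C, hC⟩ := (isCompact_Icc (a := (0:ℝ)) (b := 2 * (L : ℝ) * max ρ 0)).exists_bound_of_continuousOn
    hψ.continuousOn
  have hint : Integrable ((Metric.ball (0:ℂ) ρ).indicator (fun _ => C)) volume := by
    rw [integrable_indicator_iff Metric.isOpen_ball.measurableSet]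
    exact integrableOn_const (by finiteness) (by finiteness)
  refine tendsto_integral_of_dominated_convergence _ (fun n => ?_) hint (fun n => ?_) ?_
  · exact (hψ.comp (hu n).lip.continuous).aestronglyMeasurable
  · refine Eventually.of_forall fun x => ?_
    by_cases hx : x ∈ Metric.ball (0:ℂ) ρ
    · rw [indicator_of_mem hx]
      exact hC _ (adm_bound (hu n) x)
    · rw [indicator_of_notMem hx]
      rw [Metric.mem_ball, dist_zero_right, not_lt] at hx
      rw [(hu n).supp x hx, h0, norm_zero]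
  · refine Eventually.of_forall fun x => ?_
    exact (hψ.tendsto _).comp (hf x)

lemma tendsto_wt {L : NNReal} {ρ : ℝ} {u : ℕ → ℂ → ℝ} {f : ℂ → ℝ} (hu : ∀ n, Adm L ρ (u n))
    (hf : ∀ x, Tendsto (fun n => u n x) atTop (𝓝 (f x))) :
    Tendsto (fun n => ∫ x, u n x * wt x) atTop (𝓝 (∫ x, f x * wt x)) := by
  have hint : Integrable ((Metric.ball (0:ℂ) ρ).indicator (fun _ => 2 * (L : ℝ) * max ρ 0)) volume := by
    rw [integrable_indicator_iff Metric.isOpen_ball.measurableSet]
    exact integrableOn_const (by finiteness) (by finiteness)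
  have hwc : Continuous wt := by unfold wt; fun_prop
  refine tendsto_integral_of_dominated_convergence _ (fun n => ?_) hint (fun n => ?_) ?_
  · exact ((hu n).lip.continuous.mul hwc).aestronglyMeasurable
  · refine Eventually.of_forall fun x => ?_
    by_cases hx : x ∈ Metric.ball (0:ℂ) ρ
    · rw [indicator_of_mem hx]
      have h1 := adm_bound (hu n) x
      have h2 : wt x ≤ 1 := by
        unfold wt
        rw [Real.exp_le_one_iff]
        have := sq_nonneg ‖x‖
        linarith
      have h3 : 0 ≤ wt x := (Real.exp_pos _).le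
      rw [norm_mul, Real.norm_eq_abs, Real.norm_eq_abs, abs_of_nonneg h1.1, abs_of_nonneg h3]
      calc u n x * wt x ≤ u n x * 1 := mul_le_mul_of_nonneg_left h2 h1.1
        _ ≤ _ := by rw [mul_one]; exact h1.2
    · rw [indicator_of_notMem hx]
      rw [Metric.mem_ball, dist_zero_right, not_lt] at hx
      rw [(hu n).supp x hx, zero_mul, norm_zero]
  · refine Eventually.of_forall fun x => ?_
    exact (hf x).mul_const _

lemma tendsto_inter {L : NNReal} {ρ : ℝ} {u : ℕ → ℂ → ℝ} {f : ℂ → ℝ} (hu : ∀ n, Adm L ρ (u n))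
    (hf : ∀ x, Tendsto (fun n => u n x) atTop (𝓝 (f x))) (r : ℝ) :
    Tendsto (fun n => inter r (u n)) atTop (𝓝 (inter r f)) := by
  set M : ℝ := 2 * (L : ℝ) * max ρ 0 with hM
  have hfin : volume (Metric.ball (0:ℂ) r) ≠ ⊤ := by finiteness
  have hint : Integrable ((Metric.ball (0:ℂ) ρ).indicator
      (fun _ => (M * M) * (volume (Metric.ball (0:ℂ) r)).toReal)) volume := by
    rw [integrable_indicator_iff Metric.isOpen_ball.measurableSet]
    exact integrableOn_const (by finiteness) (by finiteness)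
  have hnb : ∀ n x h, ‖u n x * u n (x + h)‖ ≤ M * M := by
    intro n x h
    have h1 := adm_bound (hu n) x
    have h2 := adm_bound (hu n) (x + h)
    rw [norm_mul, Real.norm_eq_abs, Real.norm_eq_abs, abs_of_nonneg h1.1, abs_of_nonneg h2.1]
    exact mul_le_mul h1.2 h2.2 h2.1 (h1.1.trans h1.2)
  unfold inter
  refine tendsto_integral_of_dominated_convergence _ (fun n => ?_) hint (fun n => ?_) ?_
  · have hc : Continuous (fun p : ℂ × ℂ => u n p.1 * u n (p.1 + p.2)) := by
      have := (hu n).lip.continuous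
      fun_prop
    exact (hc.stronglyMeasurable.integral_prod_right (ν := volume.restrict (Metric.ball (0:ℂ) r))).aestronglyMeasurable
  · refine Eventually.of_forall fun x => ?_
    by_cases hx : x ∈ Metric.ball (0:ℂ) ρ
    · rw [indicator_of_mem hx]
      have := norm_setIntegral_le_of_norm_le_const (μ := volume) (s := Metric.ball (0:ℂ) r)
        (f := fun h => u n x * u n (x + h)) hfin.lt_top (fun h _ => hnb n x h)
      exact this
    · rw [indicator_of_notMem hx]
      rw [Metric.mem_ball, dist_zero_right, not_lt] at hx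
      simp only [(hu n).supp x hx, zero_mul, integral_zero, norm_zero, le_refl]
  · refine Eventually.of_forall fun x => ?_
    refine tendsto_integral_of_dominated_convergence (fun _ => M * M) (fun n => ?_) ?_ (fun n => ?_) ?_
    · have hc : Continuous (fun h : ℂ => u n x * u n (x + h)) := by
        have := (hu n).lip.continuous
        fun_prop
      exact hc.aestronglyMeasurable
    · exact integrableOn_const hfin (by finiteness)
    · exact Eventually.of_forall fun h => hnb n x h
    · exact Eventually.of_forall fun h => (hf x).mul (hf (x + h))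

theorem cmpk : CmpkStmt := by
  intro L ρ g hg
  set C : Set (ℂ → ℝ) := {f | Adm L ρ f ∧ Equi f g ∧ ∀ r : ℝ, 0 < r → inter r g ≤ inter r f} with hC
  have hgC : g ∈ C := ⟨hg, fun ψ _ _ => rfl, fun r _ => le_rfl⟩
  set J : (ℂ → ℝ) → ℝ := fun f => ∫ x, f x * wt x with hJ
  have hwc : Continuous wt := by unfold wt; fun_prop
  set M : ℝ := 2 * (L : ℝ) * max ρ 0 with hM
  have hbd : BddAbove (J '' C) := by
    refine ⟨∫ x, (Metric.ball (0:ℂ) ρ).indicator (fun _ => M) x, ?_⟩
    rintro _ ⟨f, hf, rfl⟩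
    have hint : Integrable ((Metric.ball (0:ℂ) ρ).indicator (fun _ => M)) volume := by
      rw [integrable_indicator_iff Metric.isOpen_ball.measurableSet]
      exact integrableOn_const (by finiteness) (by finiteness)
    have hpt : ∀ x, f x * wt x ≤ (Metric.ball (0:ℂ) ρ).indicator (fun _ => M) x := by
      intro x
      by_cases hx : x ∈ Metric.ball (0:ℂ) ρ
      · rw [indicator_of_mem hx]
        have h1 := adm_bound hf.1 x
        have h2 : wt x ≤ 1 := by
          unfold wt
          rw [Real.exp_le_one_iff]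
          have := sq_nonneg ‖x‖
          linarith
        calc f x * wt x ≤ f x * 1 := mul_le_mul_of_nonneg_left h2 h1.1
          _ ≤ _ := by rw [mul_one]; exact h1.2
      · rw [indicator_of_notMem hx]
        rw [Metric.mem_ball, dist_zero_right, not_lt] at hx
        rw [hf.1.supp x hx, zero_mul]
    have hnn : ∀ x, 0 ≤ f x * wt x := fun x => mul_nonneg (hf.1.nonneg x) (Real.exp_pos _).le
    have hi : Integrable (fun x => f x * wt x) volume := by
      refine hint.mono (hf.1.lip.continuous.mul hwc).aestronglyMeasurable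
        (Eventually.of_forall fun x => ?_)
      rw [Real.norm_eq_abs, Real.norm_eq_abs, abs_of_nonneg (hnn x)]
      exact (hpt x).trans (le_abs_self _)
    exact integral_mono hi hint hpt
  have hne : (J '' C).Nonempty := ⟨J g, g, hgC, rfl⟩
  obtain ⟨v, hv1, hv2, hv3⟩ := exists_seq_tendsto_sSup hne hbd
  choose u hu hJu using hv3
  obtain ⟨φ, hφ, f, hf⟩ := subseq L M u (fun n => (hu n).1.lip) (fun n x => adm_bound (hu n).1 x)
  have huφ : ∀ n, Adm L ρ (u (φ n)) := fun n => (hu (φ n)).1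
  refine ⟨f, ⟨adm_limit huφ hf, ?_, ?_⟩, ?_⟩
  · intro ψ hψ h0
    have h1 := tendsto_psi huφ hf ψ hψ h0
    have h2 : (fun n => ∫ x, ψ (u (φ n) x)) = fun _ => ∫ x, ψ (g x) := by
      funext n
      exact (hu (φ n)).2.1 ψ hψ h0
    rw [h2] at h1
    exact tendsto_nhds_unique h1 tendsto_const_nhds |>.symm ▸ rfl
  · intro r hr
    exact ge_of_tendsto (tendsto_inter huφ hf r)
      (Eventually.of_forall fun n => (hu (φ n)).2.2 r hr)
  · intro f' hf'
    have h1 : Tendsto (fun n => J (u (φ n))) atTop (𝓝 (J f)) := tendsto_wt huφ hf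
    have h2 : Tendsto (fun n => J (u (φ n))) atTop (𝓝 (sSup (J '' C))) := by
      have : (fun n => J (u (φ n))) = v ∘ φ := by
        funext n; exact hJu (φ n)
      rw [this]
      exact hv2.comp hφ.tendsto_atTop
    have h3 : J f = sSup (J '' C) := tendsto_nhds_unique h1 h2
    have h4 : J f' ≤ sSup (J '' C) := le_csSup hbd ⟨f', hf', rfl⟩
    rw [← h3] at h4
    exact h4

end Pool.Agent.RFK.H81
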